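import Pool.Agent.H70.NC.Targets
import Pool.Agent.H79.OQ.TBI

/-!
# BLK: the bound for one table
-/

set_option autoImplicit false

namespace Pool.Agent.H22.NC

open Finset Filter Pool.Agent.H6.NB Pool.Agent.H70.OQ Pool.Agent.H70.NC

section

variable {M R : Type} {Y : ℕ → Type} [Fintype M] [DecidableEq M] [Fintype R]
  [DecidableEq R] [Nonempty R] [∀ i, Fintype (Y i)] [∀ i, DecidableEq (Y i)] [∀ i, Nonempty (Y i)]

/-- The sum over the answers is at most the number of answers. -/
theorem sum_ic_le (p : (M → Bool) → Prop) : ∑ β : M → Bool, ic (p β) ≤ 2 ^ Fintype.card M := by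
  calc ∑ β : M → Bool, ic (p β) ≤ ∑ _β : M → Bool, (1 : ℝ) :=
        sum_le_sum fun β _ => Pool.Agent.H79.OQ.TBI.ic_le_one _
    _ = 2 ^ Fintype.card M := by simp

omit [∀ i, Fintype (Y i)] [∀ i, Nonempty (Y i)] in
/-- The bound for fixed live rows and hidden choices. -/
theorem blk_pair (h2 : T_TLX) (h5 : T_UWS) (k T w L : ℕ) (δ : ℝ) (hδ : 0 ≤ δ) (hL : 1 ≤ L)
    (f : M → (Node (M × R) Y k → Bool) → Bool) (H : Hid (M × R) Y k) (l : M × R → Bool) :
    ∑ h : M → R, uw (Lof l) h * ∑ β : M → Bool, ic ((1 / 2 + δ) * Fintype.card M <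
        ((univ.filter fun x => f x (sv (glu h β) k H) = β x).card : ℝ)) ≤
      2 ^ Fintype.card M * (∑ x, ic (¬ DR (T * w) k (f x) H l) +
        ic (∃ a, (univ.filter fun z => l (a, z) = true).card < L) +
        Real.exp (Fintype.card M * (-2 * δ ^ 2 + T * w / L))) := by
  have huw := h5 M R (Lof l)
  have huw1 := huw.2 (fun a => Pool.Agent.H79.OQ.TBI.Lof_nonempty l a)
  have n1 : (0 : ℝ) ≤ ∑ x, ic (¬ DR (T * w) k (f x) H l) :=
    sum_nonneg fun x _ => Pool.Agent.H79.OQ.TB1.ic_nonneg _
  have n2 := Pool.Agent.H79.OQ.TB1.ic_nonneg (∃ a, (univ.filter fun z => l (a, z) = true).card < L)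
  have n3 := Real.exp_pos (Fintype.card M * (-2 * δ ^ 2 + T * w / L) : ℝ)
  have c0 : (0 : ℝ) < 2 ^ Fintype.card M := by positivity
  have triv : ∑ h : M → R, uw (Lof l) h * ∑ β : M → Bool, ic ((1 / 2 + δ) * Fintype.card M <
        ((univ.filter fun x => f x (sv (glu h β) k H) = β x).card : ℝ)) ≤
        2 ^ Fintype.card M * 1 := by
    calc _ ≤ ∑ h : M → R, uw (Lof l) h * 2 ^ Fintype.card M :=
          sum_le_sum fun h _ => mul_le_mul_of_nonneg_left (sum_ic_le _) (huw.1 h)
      _ = 2 ^ Fintype.card M * 1 := by rw [← sum_mul, huw1, one_mul, mul_one]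
  by_cases c1 : ∀ x, DR (T * w) k (f x) H l
  · by_cases c2 : ∃ a, (univ.filter fun z => l (a, z) = true).card < L
    · refine triv.trans (mul_le_mul_of_nonneg_left ?_ c0.le)
      rw [Pool.Agent.H79.OQ.TBI.ic_true c2]
      linarith
    · push Not at c2
      choose Tr hTd hTe using c1
      have key := h2 M R (T * w) L δ l Tr hδ hL c2 hTd
      have e : ∑ h : M → R, uw (Lof l) h * ∑ β : M → Bool, ic ((1 / 2 + δ) * Fintype.card M <
          ((univ.filter fun x => f x (sv (glu h β) k H) = β x).card : ℝ)) =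
          ∑ β : M → Bool, ∑ h : M → R, uw (Lof l) h *
            ic ((1 / 2 + δ) * Fintype.card M < cor (fun m y => (Tr m).eval y) h β) := by
        rw [sum_comm]
        refine sum_congr rfl fun h _ => ?_
        rw [mul_sum]
        refine sum_congr rfl fun β _ => ?_
        by_cases hz : uw (Lof l) h = 0
        · rw [hz, zero_mul, zero_mul]
        · have hlive := Pool.Agent.H79.OQ.TBI.live_of_uw l (fun a => lt_of_lt_of_le hL (c2 a)) h hz
          have hcor : cor (fun m y => (Tr m).eval y) h β =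
              (univ.filter fun x => f x (sv (glu h β) k H) = β x).card := by
            unfold cor
            congr 1
            refine filter_congr fun x _ => ?_
            have := hTe x (glu h β) (fun v hv => Pool.Agent.H79.OQ.TBI.glu_true l h hlive β v hv)
            rw [← this]
          rw [hcor]
      rw [e]
      refine key.trans (mul_le_mul_of_nonneg_left ?_ c0.le)
      push_cast
      linarith
  · push Not at c1
    obtain ⟨x, hx⟩ := c1
    refine triv.trans (mul_le_mul_of_nonneg_left ?_ c0.le)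
    have h1 : ic (¬ DR (T * w) k (f x) H l) ≤ ∑ x, ic (¬ DR (T * w) k (f x) H l) :=
      single_le_sum (f := fun x => ic (¬ DR (T * w) k (f x) H l))
        (fun y _ => Pool.Agent.H79.OQ.TB1.ic_nonneg _) (mem_univ x)
    rw [Pool.Agent.H79.OQ.TBI.ic_true hx] at h1
    linarith

end

theorem blk (h1 : T_OFR) (h2 : T_TLX) (h3 : Pool.Agent.H70.OQ.T_SYM) (h4 : Pool.Agent.H70.OQ.T_LIV)
    (h5 : Pool.Agent.H70.OQ.T_UWS) (h6 : Pool.Agent.H70.OQ.T_LWS) : T_BLK := by
  intro M R Y _ _ _ _ _ _ _ _ k m S t T w G L G₀ q δ hw htw hq hq64 hG hδ hL hGL hY f hf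
  have hq1 := Pool.Agent.H79.OQ.TB1.q_le hw hq hq64
  set bad : Hid (M × R) Y k → (M → R) → (M → Bool) → Prop := fun H h β =>
    (1 / 2 + δ) * Fintype.card M < ((univ.filter fun x => f x (sv (glu h β) k H) = β x).card : ℝ)
    with hbad
  set E : ℝ := Real.exp (Fintype.card M * (-2 * δ ^ 2 + T * w / L)) with hE
  have e0 : ((univ.filter fun c : Hid (M × R) Y k × (M → R) × (M → Bool) =>
      (1 / 2 + δ) * Fintype.card M <
      ((univ.filter fun x => f x (sv (glu c.2.1 c.2.2) k c.1) = c.2.2 x).card : ℝ)).card : ℝ) =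
      ∑ h : M → R, ∑ H : Hid (M × R) Y k, ∑ β : M → Bool, ic (bad H h β) := by
    rw [sum_comm]
    rw [card_filter]
    push_cast
    rw [Fintype.sum_prod_type]
    refine sum_congr rfl fun H _ => ?_
    rw [Fintype.sum_prod_type]
    refine sum_congr rfl fun h _ => sum_congr rfl fun β _ => ?_
    unfold ic
    simp only [hbad]
  have hR : (0 : ℝ) < (Fintype.card R : ℝ) ^ Fintype.card M := by
    have : 0 < Fintype.card R := Fintype.card_pos
    positivity
  have e1 := h3 M R q (fun h => ∑ H : Hid (M × R) Y k, ∑ β : M → Bool, ic (bad H h β))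
  have e2 : ∑ h : M → R, ∑ H : Hid (M × R) Y k, ∑ β : M → Bool, ic (bad H h β) =
      (Fintype.card R : ℝ) ^ Fintype.card M * ∑ l : M × R → Bool, lw q l *
        ∑ h : M → R, uw (Lof l) h * ∑ H : Hid (M × R) Y k, ∑ β : M → Bool, ic (bad H h β) := by
    rw [e1, mul_div_cancel₀ _ hR.ne']
  have hliv := h4 M R q L G₀ hq.le hq1 hGL
  have hlw1 : ∑ l : M × R → Bool, lw q l = 1 := h6 (M × R) q
  have hofr : ∀ x, ∑ H : Hid (M × R) Y k, ∑ l : M × R → Bool, lw q l *
      ic (¬ DR (T * w) k (f x) H l) ≤ m * errD (M × R) Y S w G q k * Fintype.card (Hid (M × R) Y k) :=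
    fun x => h1 (M × R) Y k m S t T w G q hw htw hq hq64 hG hY (f x) (hf x)
  have e3 : ∑ l : M × R → Bool, lw q l *
        ∑ h : M → R, uw (Lof l) h * ∑ H : Hid (M × R) Y k, ∑ β : M → Bool, ic (bad H h β) ≤
      ∑ l : M × R → Bool, lw q l * ∑ H : Hid (M × R) Y k, (2 ^ Fintype.card M *
        (∑ x, ic (¬ DR (T * w) k (f x) H l) +
        ic (∃ a, (univ.filter fun z => l (a, z) = true).card < L) + E)) := by
    refine sum_le_sum fun l _ => mul_le_mul_of_nonneg_left ?_
      (Pool.Agent.H79.OQ.TB1.lw_nonneg hq.le hq1 l)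
    have : ∑ h : M → R, uw (Lof l) h * ∑ H : Hid (M × R) Y k, ∑ β : M → Bool, ic (bad H h β) =
        ∑ H : Hid (M × R) Y k, ∑ h : M → R, uw (Lof l) h * ∑ β : M → Bool, ic (bad H h β) := by
      rw [sum_comm]
      refine sum_congr rfl fun h _ => ?_
      rw [mul_sum]
    rw [this]
    refine sum_le_sum fun H _ => ?_
    exact blk_pair h2 h5 k T w L δ hδ hL f H l
  have e4 : ∑ l : M × R → Bool, lw q l * ∑ H : Hid (M × R) Y k, (2 ^ Fintype.card M *
        (∑ x, ic (¬ DR (T * w) k (f x) H l) +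
        ic (∃ a, (univ.filter fun z => l (a, z) = true).card < L) + E)) =
      2 ^ Fintype.card M * ((∑ x, ∑ H : Hid (M × R) Y k, ∑ l : M × R → Bool, lw q l *
          ic (¬ DR (T * w) k (f x) H l)) +
        Fintype.card (Hid (M × R) Y k) * (∑ l : M × R → Bool, lw q l *
          ic (∃ a, (univ.filter fun z => l (a, z) = true).card < L)) +
        Fintype.card (Hid (M × R) Y k) * (∑ l : M × R → Bool, lw q l) * E) := by
    have s1 : ∑ x, ∑ H : Hid (M × R) Y k, ∑ l : M × R → Bool, lw q l *
          ic (¬ DR (T * w) k (f x) H l) = ∑ l : M × R → Bool, lw q l *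
          ∑ H : Hid (M × R) Y k, ∑ x, ic (¬ DR (T * w) k (f x) H l) := by
      calc ∑ x, ∑ H : Hid (M × R) Y k, ∑ l : M × R → Bool, lw q l *
          ic (¬ DR (T * w) k (f x) H l)
          = ∑ H : Hid (M × R) Y k, ∑ x, ∑ l : M × R → Bool, lw q l *
            ic (¬ DR (T * w) k (f x) H l) := sum_comm
        _ = ∑ H : Hid (M × R) Y k, ∑ l : M × R → Bool, ∑ x, lw q l *
            ic (¬ DR (T * w) k (f x) H l) := sum_congr rfl fun H _ => sum_comm
        _ = ∑ l : M × R → Bool, ∑ H : Hid (M × R) Y k, ∑ x, lw q l *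
            ic (¬ DR (T * w) k (f x) H l) := sum_comm
        _ = _ := by
          refine sum_congr rfl fun l _ => ?_
          rw [mul_sum]
          exact sum_congr rfl fun H _ => (mul_sum _ _ _).symm
    rw [s1, mul_sum (s := univ) (f := fun l : M × R → Bool => lw q l *
      ic (∃ a, (univ.filter fun z => l (a, z) = true).card < L)),
      mul_sum (s := univ) (f := fun l : M × R → Bool => lw q l), sum_mul, ← sum_add_distrib,
      ← sum_add_distrib, mul_sum]
    refine sum_congr rfl fun l _ => ?_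
    rw [← mul_sum, sum_add_distrib, sum_add_distrib, sum_const, sum_const, card_univ]
    simp only [nsmul_eq_mul]
    ring
  have hx : ∑ x, ∑ H : Hid (M × R) Y k, ∑ l : M × R → Bool, lw q l *
          ic (¬ DR (T * w) k (f x) H l) ≤
      Fintype.card M * (m * errD (M × R) Y S w G q k * Fintype.card (Hid (M × R) Y k)) := by
    calc _ ≤ ∑ _x : M, (m * errD (M × R) Y S w G q k * Fintype.card (Hid (M × R) Y k) : ℝ) :=
          sum_le_sum fun x _ => hofr x
      _ = _ := by rw [sum_const, card_univ, nsmul_eq_mul]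
  rw [e4] at e3
  rw [e0, e2]
  have hcH : (0 : ℝ) ≤ Fintype.card (Hid (M × R) Y k) := by positivity
  have hc2 : (0 : ℝ) ≤ 2 ^ Fintype.card M := by positivity
  have e5 : 2 ^ Fintype.card M * ((∑ x, ∑ H : Hid (M × R) Y k, ∑ l : M × R → Bool, lw q l *
          ic (¬ DR (T * w) k (f x) H l)) +
        Fintype.card (Hid (M × R) Y k) * (∑ l : M × R → Bool, lw q l *
          ic (∃ a, (univ.filter fun z => l (a, z) = true).card < L)) +
        Fintype.card (Hid (M × R) Y k) * (∑ l : M × R → Bool, lw q l) * E) ≤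
      2 ^ Fintype.card M * (Fintype.card M *
          (m * errD (M × R) Y S w G q k * Fintype.card (Hid (M × R) Y k)) +
        Fintype.card (Hid (M × R) Y k) * (Fintype.card M * L * (1 - q) ^ G₀) +
        Fintype.card (Hid (M × R) Y k) * 1 * E) := by
    refine mul_le_mul_of_nonneg_left ?_ hc2
    rw [hlw1]
    have := mul_le_mul_of_nonneg_left hliv hcH
    linarith
  calc (Fintype.card R : ℝ) ^ Fintype.card M * _
      ≤ (Fintype.card R : ℝ) ^ Fintype.card M * (2 ^ Fintype.card M * (Fintype.card M *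
          (m * errD (M × R) Y S w G q k * Fintype.card (Hid (M × R) Y k)) +
        Fintype.card (Hid (M × R) Y k) * (Fintype.card M * L * (1 - q) ^ G₀) +
        Fintype.card (Hid (M × R) Y k) * 1 * E)) :=
        mul_le_mul_of_nonneg_left (e3.trans e5) hR.le
    _ = _ := by
        rw [Fintype.card_prod, Fintype.card_prod, Fintype.card_fun, Fintype.card_fun,
          Fintype.card_bool]
        push_cast
        ring

end Pool.Agent.H22.NC
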